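import Pool.Agent.H66.SLP.Net
import Pool.Agent.H53.SS.Targets

/-!
# The recursion on segments (MP_81fcf0_co): targets

Cells `0, .., u.length`. `Fam` = a finite family of intervals inside `[α, β)` which avoid their
letters in `u`; `Inst` = such a family with coverage at least `M` and total price at most `M θ`.
-/

set_option autoImplicit false

open Finset
open Pool.Agent.H66.SLP

namespace Pool.Agent.H90.SRC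

/-- a family of intervals inside `[α, β)` which avoid their letters -/
structure Fam {Y : Type} (u : List Y) (α β : ℕ) (ι : Type) (z : ι → Y) (s e : ι → ℕ) : Prop where
  lo : ∀ i, α ≤ s i
  lt : ∀ i, s i < e i
  hi : ∀ i, e i ≤ β
  sep : ∀ i j, i ≠ j → z i = z j → e i ≤ s j ∨ e j ≤ s i
  av : ∀ i k, s i ≤ k → k + 1 < e i → u[k]? ≠ some (z i)

/-- an instance: every cell is covered at least `M` times, the total price is at most `M θ` -/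
def Inst {Y : Type} (u : List Y) (p : Y → ℝ) (α β M : ℕ) (θ : ℝ) : Prop :=
  ∃ (ι : Type) (_ : Fintype ι) (_ : DecidableEq ι) (z : ι → Y) (s e : ι → ℕ),
    Fam u α β ι z s e ∧ (∀ x, α ≤ x → x < β → M ≤ cov s e univ x) ∧ ∑ i, p (z i) ≤ M * θ

/-- prices between 1 and 2 -/
def Pr {Y : Type} (p : Y → ℝ) : Prop := ∀ y, 1 ≤ p y ∧ p y ≤ 2

/-- GAP: the gaps of the letters -/
def T_GAP : Prop := ∀ (Y : Type) [Fintype Y] [DecidableEq Y] (u : List Y) (p : Y → ℝ) (θ : ℝ),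
  (∀ y, 0 ≤ p y) → (∀ y, p y * ((u.count y : ℝ) + 1) ≤ θ) →
  Inst u p 0 (u.length + 1) (Fintype.card Y) θ

/-- ONE: the price per layer is at least one -/
def T_ONE : Prop := ∀ (Y : Type) (u : List Y) (p : Y → ℝ) (α β M : ℕ) (θ : ℝ), Pr p → α < β →
  1 ≤ M → Inst u p α β M θ → 1 ≤ θ

/-- LPA: the linear program on `[α, β)`, the weights of the cells capped at 2 -/
def T_LPA : Prop := ∀ (Y : Type) (u : List Y) (p : Y → ℝ) (α β M Q : ℕ) (θ : ℝ), Pr p → α < β →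
  Q ≤ M → 1 ≤ Q → Inst u p α β M θ →
  ∃ (ι : Type) (_ : Fintype ι) (_ : DecidableEq ι) (z : ι → Y) (s e : ι → ℕ) (w : ℕ → ℝ),
    Fam u α β ι z s e ∧ (∀ x, 0 ≤ w x ∧ w x ≤ 2) ∧
    (∀ x, α ≤ x → x < β → cov s e univ x = Q) ∧ (∀ i, p (z i) ≤ wt w (s i) (e i)) ∧
    ((M : ℝ) - Q) * wt w α β ≤ M * θ - ∑ i, p (z i)

/-- PIE: pieces of nearly equal weight -/
def T_PIE : Prop := ∀ (w : ℕ → ℝ) (α β T : ℕ), α < β → 1 ≤ T → (∀ x, 0 ≤ w x ∧ w x ≤ 2) →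
  ∃ c : ℕ → ℕ, Monotone c ∧ c 0 = α ∧ c T = β ∧
    ∀ j < T, wt w (c j) (c (j + 1)) ≤ wt w α β / T + 2

/-- RW1: a piece with large rewards -/
def T_RW1 : Prop := ∀ (Y : Type) (u : List Y) (p : Y → ℝ) (α β Q T : ℕ) (θ : ℝ)
  (ι : Type) [Fintype ι] [DecidableEq ι] (z : ι → Y) (s e : ι → ℕ) (w : ℕ → ℝ) (c : ℕ → ℕ),
  Pr p → 1 ≤ T → Fam u α β ι z s e → (∀ x, 0 ≤ w x) →
  (∀ x, α ≤ x → x < β → cov s e univ x = Q) → (∀ i, p (z i) ≤ wt w (s i) (e i)) →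
  Monotone c → c 0 = α → c T = β →
  (((T * Q : ℕ) : ℝ) - Q) * wt w α β ≤ ((T * Q : ℕ) : ℝ) * θ - ∑ i, p (z i) →
  ∃ j < T, (Q : ℝ) * (wt w α β - θ) ≤ ∑ i, (wt w (s i) (e i) - p (z i)) *
    (wt w (max (s i) (c j)) (min (e i) (c (j + 1))) / wt w (s i) (e i))

/-- RW2: the price of the intervals which meet `[a, b)` -/
def T_RW2 : Prop := ∀ (Y : Type) (u : List Y) (p : Y → ℝ) (α β a b Q : ℕ)
  (ι : Type) [Fintype ι] [DecidableEq ι] (z : ι → Y) (s e : ι → ℕ) (w : ℕ → ℝ),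
  Pr p → Fam u α β ι z s e → (∀ x, 0 ≤ w x) →
  (∀ x, α ≤ x → x < β → cov s e univ x = Q) → (∀ i, p (z i) ≤ wt w (s i) (e i)) →
  α ≤ a → a < b → b ≤ β →
  ∑ i, (if s i < b ∧ a < e i then p (z i) else 0) ≤ Q * wt w a b -
    ∑ i, (wt w (s i) (e i) - p (z i)) *
      (wt w (max (s i) a) (min (e i) b) / wt w (s i) (e i)) + 4 * Q

/-- RWD: the new instance -/
def T_RWD : Prop := ∀ (Y : Type) (u : List Y) (p : Y → ℝ) (α β Q T : ℕ) (θ : ℝ)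
  (ι : Type) [Fintype ι] [DecidableEq ι] (z : ι → Y) (s e : ι → ℕ) (w : ℕ → ℝ) (c : ℕ → ℕ),
  Pr p → 1 ≤ T → 1 ≤ Q → Fam u α β ι z s e → (∀ x, 0 ≤ w x) →
  (∀ x, α ≤ x → x < β → cov s e univ x = Q) → (∀ i, p (z i) ≤ wt w (s i) (e i)) →
  Monotone c → c 0 = α → c T = β →
  (((T * Q : ℕ) : ℝ) - Q) * wt w α β ≤ ((T * Q : ℕ) : ℝ) * θ - ∑ i, p (z i) →
  θ < wt w α β →
  ∃ j < T, c j < c (j + 1) ∧
    Inst u p (c j) (c (j + 1)) Q (wt w (c j) (c (j + 1)) - (wt w α β - θ) + 4)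

/-- the rank system `S` realizes the segment `[α, β)` -/
def SegOK {Y : Type} (u : List Y) (p : Y → ℝ) (α β : ℕ) (S : RSys Y) : Prop :=
  (∀ i < S.F, p (S.ℓ i) ≤ S.τ (S.π i) - S.τ i) ∧
  ∀ l, S.Path l → ∀ g h, α ≤ g → h ≤ u.length →
    (l.map S.ℓ).Sublist ((u.take h).drop g) → β ≤ h

/-- SEG: a family with exact coverage realizes every segment -/
def T_SEG : Prop := ∀ (Y : Type) (u : List Y) (p : Y → ℝ) (α β a b Q : ℕ)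
  (ι : Type) [Fintype ι] [DecidableEq ι] (z : ι → Y) (s e : ι → ℕ) (w : ℕ → ℝ),
  Pr p → Fam u α β ι z s e → (∀ x, 0 ≤ w x) →
  (∀ x, α ≤ x → x < β → cov s e univ x = Q) → (∀ i, p (z i) ≤ wt w (s i) (e i)) →
  1 ≤ Q → α ≤ a → a < b → b ≤ β →
  ∃ S : RSys Y, SegOK u p a b S ∧ S.Q = Q ∧ S.W = wt w a b + 4

/-- consecutive segments -/
def Cov {Y : Type} (u : List Y) (p : Y → ℝ) : ℕ → List (RSys Y) → ℕ → Prop
  | α, [], β => α = β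
  | α, S :: L, β => ∃ γ, SegOK u p α γ S ∧ Cov u p γ L β

/-- REC: the recursion -/
def T_REC : Prop := ∀ (Y : Type) (u : List Y) (p : Y → ℝ) (t : ℕ), Pr p → 2 ≤ t →
  ∀ (J M α β : ℕ) (lam θ : ℝ), α < β → 2 ^ (t * J) ∣ M → 1 ≤ M → 0 < lam → lam * θ ≤ M →
  θ < ((2 : ℝ) ^ t / 2) ^ J → Inst u p α β M θ →
  ∃ L : List (RSys Y), Cov u p α L β ∧ L.length ≤ 2 * J ∧
    (L.map fun S => S.W).sum ≤ θ + 12 * J ∧
    ∀ S ∈ L, 0 < S.W ∧ S.W ≤ 2 * θ + 4 ∧ S.Q ∣ M ∧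
      lam * (S.W + 1) ≤ 7 * 2 ^ t * 2 ^ J * S.Q

/-- WRD: the word of the paths -/
def T_WRD : Prop := ∀ (Y : Type) (u : List Y) (p : Y → ℝ) (L : List (RSys Y)),
  Cov u p 0 L (u.length + 1) → ∀ l : Fin L.length → List ℕ, (∀ r, (L.get r).Path (l r)) →
  ¬ (List.ofFn fun r => (l r).map (L.get r).ℓ).flatten.Sublist u ∧
  ((List.ofFn fun r => (l r).map (L.get r).ℓ).flatten.map p).sum ≤
    (L.map fun S => S.W).sum + ∑ r, (L.get r).ovl (l r)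

/-- NUM: the choice of the parameters -/
def T_NUM : Prop := ∀ (ε : ℝ) (J : ℕ) (C₀ : ℝ), 0 < ε → ε ≤ 1 → 4 / ε ≤ J → (J : ℝ) ≤ 4 / ε + 1 →
  1 ≤ C₀ →
  ∃ C : ℝ, 1 ≤ C ∧ ∀ (θ : ℝ) (m : ℕ), 1 ≤ θ → C * θ ^ (1 + ε) / 2 ≤ (2 : ℝ) ^ m →
    (2 : ℝ) ^ m ≤ C * θ ^ (1 + ε) →
    ∃ t : ℕ, 2 ≤ t ∧ θ < ((2 : ℝ) ^ t / 2) ^ J ∧ 2 ^ (t * J) ∣ 2 ^ m ∧ 2 * θ + 4 ≤ 8 * C * θ ∧
      (2 : ℝ) ^ m ≤ (8 * C * θ) ^ (10 : ℕ) ∧
      ∀ W Q : ℝ, 0 ≤ W → (2 : ℝ) ^ m / θ * (W + 1) ≤ 7 * 2 ^ t * 2 ^ J * Q →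
        C₀ * (W + 1) * (8 * C * θ) ^ (ε / 2) ≤ Q

/-- FTY: finite alphabets with a power of two of letters -/
def T_FTY : Prop := ∀ ε : ℝ, 0 < ε → ε ≤ 1 → ∃ C C' : ℝ, 1 ≤ C ∧ 0 ≤ C' ∧ ∀ (Y : Type) [Fintype Y]
  [DecidableEq Y] (u : List Y) (p : Y → ℝ) (θ : ℝ) (m : ℕ), Pr p → 1 ≤ θ →
  Fintype.card Y = 2 ^ m → C * θ ^ (1 + ε) / 2 ≤ (2 : ℝ) ^ m → (2 : ℝ) ^ m ≤ C * θ ^ (1 + ε) →
  (∀ y, p y * ((u.count y : ℝ) + 1) ≤ θ) →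
  ∃ L : List Y, L.Nodup ∧ ¬ L.Sublist u ∧ (L.map p).sum ≤ θ + C'

end Pool.Agent.H90.SRC
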